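import Mathlib

namespace Pool.Agent.Results.MP_16ddc9_co.Degree
open SimpleGraph Finset

/-- G has a neighbor-locating colouring with k nonempty colour classes. -/
def HasNL {V : Type} (G : SimpleGraph V) (k : ℕ) : Prop :=
  ∃ c : V → Fin k, Function.Surjective c ∧ (∀ u v, G.Adj u v → c u ≠ c v) ∧
    ∀ u v, u ≠ v → c u = c v → c '' G.neighborSet u ≠ c '' G.neighborSet v

/-- the neighbor-locating chromatic number. -/
noncomputable def chiNL {V : Type} (G : SimpleGraph V) : ℕ := sInf {k | HasNL G k}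

variable {V : Type} {G : SimpleGraph V}

lemma parent (hG : G.IsTree) (v x : V) : ∃ y, (x ≠ v → G.Adj x y ∧ G.dist v y + 1 = G.dist v x) ∧
    ∀ z, G.Adj x z → G.dist v z + 1 = G.dist v x → z = y := by
  obtain ⟨p, hp, hl⟩ := hG.connected.exists_path_of_dist v x
  have key : ∀ z, G.Adj x z → G.dist v z + 1 = G.dist v x → z = p.penultimate := by
    intro z a e
    obtain ⟨q, hq⟩ := hG.connected.exists_walk_length_eq_dist v z
    have := (hG.isAcyclic.subsingleton_path _ _).elim ⟨p, hp⟩ ⟨q.concat a.symm,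
      Walk.isPath_of_length_eq_dist _ (by simp [hq, e])⟩
    rw [show p = q.concat a.symm from congrArg Subtype.val this, Walk.penultimate_concat]
  refine ⟨p.penultimate, fun h => ?_, key⟩
  have a := (p.adj_penultimate (Walk.not_nil_of_ne h.symm)).symm
  refine ⟨a, ?_⟩
  have h1 := G.dist_le p.dropLast
  rw [Walk.length_dropLast] at h1
  rcases hG.dist_eq_dist_add_one_of_adj v a with e | e <;> omega

lemma bound [Fintype V] [DecidableRel G.Adj] (hG : G.IsTree) {k : ℕ} (c : V → Fin k)
    (h1 : ∀ u v, G.Adj u v → c u ≠ c v)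
    (h2 : ∀ u v, u ≠ v → c u = c v → c '' G.neighborSet u ≠ c '' G.neighborSet v) (v : V) :
    G.degree v ≤ (k - 1) ^ 2 := by
  classical
  choose par p1 p2 using parent hG v
  let d := G.dist v
  let Ds : V → V → Prop := fun w x => d w ≤ d x ∧ par^[d x - d w] x = w
  have ne : ∀ x, 0 < d x → x ≠ v := fun x h e => by simp [d, e] at h
  have nb : ∀ x z, G.Adj x z → z = par x ∨ d z = d x + 1 := fun x z a =>
    (hG.dist_eq_dist_add_one_of_adj v a).imp (fun e => p2 x z a e.symm) id
  have self : ∀ w, Ds w w := fun w => ⟨le_rfl, by simp⟩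
  have child : ∀ w x z, Ds w x → G.Adj x z → d z = d x + 1 → Ds w z := by
    rintro w x z ⟨a, b⟩ e f
    refine ⟨by omega, ?_⟩
    rw [show d z - d w = d x - d w + 1 by omega, Function.iterate_succ_apply,
      ← p2 z x e.symm f.symm, b]
  have up : ∀ w x, Ds w x → d w < d x → Ds w (par x) := by
    rintro w x ⟨a, b⟩ l
    have : d (par x) + 1 = d x := (p1 x (ne x (by omega))).2
    refine ⟨by omega, ?_⟩
    rwa [show d x - d w = d (par x) - d w + 1 by omega, Function.iterate_succ_apply] at b
  have tr : ∀ u w x, Ds w x → G.Adj u w → d w = d u + 1 → Ds u x := by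
    rintro u w x ⟨a, b⟩ e f
    refine ⟨by omega, ?_⟩
    rw [show d x - d u = d x - d w + 1 by omega, Function.iterate_succ_apply', b]
    exact (p2 w u e.symm f.symm).symm
  let Tk : V × Bool → Prop := fun t => c t.1 ≠ c v ∧
    ∃ b, c '' G.neighborSet t.1 = if t.2 then {b} else {c v, b}
  have tok : ∀ w, c w ≠ c v → 0 < d w → ∃ t, Tk t ∧ Ds w t.1 := by
    intro w hw hd
    obtain ⟨l, l1, l2⟩ := exists_max_image (univ.filter (Ds w)) d ⟨w, by simpa using self w⟩
    simp only [mem_filter, mem_univ, true_and] at l1 l2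
    have leaf : ∀ z, Ds w z → d z = d l → c '' G.neighborSet z = {c (par z)} := by
      intro z z1 z2
      have := z1.1
      refine Set.eq_singleton_iff_unique_mem.mpr ⟨⟨_, (p1 z (ne z (by omega))).1, rfl⟩, ?_⟩
      rintro _ ⟨y, a, rfl⟩
      rcases nb z y a with rfl | e
      · rfl
      · have := l2 y (child w z y z1 a e)
        omega
    by_cases e : ∃ z, Ds w z ∧ d z = d l ∧ c z ≠ c v
    · obtain ⟨z, z1, z2, z3⟩ := e
      exact ⟨(z, true), ⟨z3, _, leaf z z1 z2⟩, z1⟩
    push Not at e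
    have l3 := e l l1 rfl
    have l4 : d w < d l := lt_of_le_of_ne l1.1 fun f => hw (e w (self w) f)
    obtain ⟨a, b⟩ := p1 l (ne l (by omega))
    have b' : d (par l) + 1 = d l := b
    have u1 := up w l l1 l4
    refine ⟨(par l, false), ⟨fun f => h1 _ _ a (l3.trans f.symm), c (par (par l)), ?_⟩, u1⟩
    apply Set.Subset.antisymm
    · rintro _ ⟨y, a', rfl⟩
      rcases nb _ y a' with rfl | f
      · simp
      · simp [e y (child w _ y u1 a' f) (f.trans b')]
    · rintro _ (rfl | rfl)
      · exact ⟨l, a.symm, l3⟩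
      · have := u1.1
        exact ⟨_, (p1 (par l) (ne _ (by omega))).1, rfl⟩
  have two : ∀ u, G.Adj v u → 2 ≤ #{t ∈ univ.filter Tk | par^[d t.1 - 1] t.1 = u} := by
    intro u a
    have du : d u = 1 := dist_eq_one_iff_adj.mpr a
    have pu : v = par u := p2 u v a.symm (by simpa [d] using du.symm)
    have cu := (h1 _ _ a).symm
    suffices ∃ s t, s ≠ t ∧ Tk s ∧ Tk t ∧ Ds u s.1 ∧ Ds u t.1 by
      obtain ⟨s, t, n, s1, t1, s2, t2⟩ := this
      exact one_lt_card.mpr ⟨s, by simpa [s1, du] using s2.2, t, by simpa [t1, du] using t2.2, n⟩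
    have ch : ∀ w, G.Adj u w → c w ≠ c v → d w = d u + 1 := fun w e f =>
      (nb u w e).resolve_left fun g => f (by rw [g, ← pu])
    by_cases e : ∃ w, G.Adj u w ∧ c w ≠ c v
    · obtain ⟨w, w1, w2⟩ := e
      have w3 := ch w w1 w2
      obtain ⟨s, s1, s2⟩ := tok w w2 (by omega)
      by_cases f : ∃ y, G.Adj u y ∧ c y ≠ c v ∧ c y ≠ c w
      · obtain ⟨y, y1, y2, y3⟩ := f
        have y4 := ch y y1 y2
        obtain ⟨t, t1, t2⟩ := tok y y2 (by omega)
        refine ⟨s, t, fun g => y3 ?_, s1, t1, tr _ _ _ s2 w1 w3, tr _ _ _ t2 y1 y4⟩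
        rw [← s2.2, ← t2.2, g, w3, y4]
      · push Not at f
        refine ⟨s, (u, false), fun g => ?_, s1, ⟨cu, c w, ?_⟩, tr _ _ _ s2 w1 w3, self u⟩
        · have := s2.1
          rw [g] at this
          simp only at this
          omega
        · apply Set.Subset.antisymm
          · rintro _ ⟨y, a', rfl⟩
            have := f y a'
            simp only [Bool.false_eq_true, if_false, Set.mem_insert_iff, Set.mem_singleton_iff]
            tauto
          · rintro _ (rfl | rfl)
            exacts [⟨v, a.symm, rfl⟩, ⟨w, w1, rfl⟩]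
    · push Not at e
      have : c '' G.neighborSet u = {c v} :=
        Set.eq_singleton_iff_unique_mem.mpr ⟨⟨v, a.symm, rfl⟩, by rintro _ ⟨y, a', rfl⟩; exact e y a'⟩
      exact ⟨(u, true), (u, false), by simp, ⟨cu, _, this⟩, ⟨cu, c v, by simpa using this⟩,
        self u, self u⟩
  have lo : G.degree v * 2 ≤ #(univ.filter Tk) := by
    refine le_trans ?_ (card_filter_le _ fun t => par^[d t.1 - 1] t.1 ∈ G.neighborFinset v)
    rw [← sum_card_fiberwise_eq_card_filter]
    exact card_nsmul_le_sum _ _ _ fun u hu => two u (by simpa using hu)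
  have ex : ∀ t : V × Bool, ∃ b, Tk t → c '' G.neighborSet t.1 = if t.2 then {b} else {c v, b} :=
    fun t => by
      by_cases h : Tk t
      exacts [h.2.imp fun _ e _ => e, ⟨c v, fun g => absurd g h⟩]
  choose β hβ using ex
  have hi := card_le_card_of_injOn (s := univ.filter Tk)
    (t := ((univ.erase (c v)).sigma fun a => univ.erase a) ×ˢ (univ : Finset Bool))
    (fun t => (⟨c t.1, β t⟩, t.2)) (fun t ht => ?_) (fun s hs t ht e => ?_)
  · rw [card_product, card_sigma] at hi
    simp only [card_erase_of_mem (mem_univ _), card_univ, Fintype.card_fin, sum_const, smul_eq_mul,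
      Fintype.card_bool] at hi
    rw [sq]
    omega
  · have t1 : Tk t := by simpa using ht
    have : β t ∈ c '' G.neighborSet t.1 := by rw [hβ t t1]; split_ifs <;> simp
    obtain ⟨y, a, e⟩ := this
    simpa using ⟨t1.1, e ▸ (h1 _ _ a).symm⟩
  · simp only [Prod.mk.injEq, Sigma.mk.injEq, heq_eq_eq] at e
    refine Prod.ext ?_ e.2
    by_contra n
    refine h2 _ _ n e.1.1 ?_
    rw [hβ s (by simpa using hs), hβ t (by simpa using ht), e.1.2, e.2]

theorem result (V : Type) [Fintype V] (T : SimpleGraph V) [DecidableRel T.Adj] (hT : T.IsTree)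
    (k : ℕ) (hk : chiNL T = k) : T.maxDegree ≤ (k - 1) ^ 2 := by
  obtain ⟨c, -, h1, h2⟩ : HasNL T k := hk ▸ Nat.sInf_mem (s := {k | HasNL T k})
    ⟨_, Fintype.equivFin V, (Fintype.equivFin V).surjective, fun _ _ h e => h.ne (by simpa using e),
      fun _ _ h e => absurd (by simpa using e) h⟩
  exact T.maxDegree_le_of_forall_degree_le _ (bound hT c h1 h2)

end Pool.Agent.Results.MP_16ddc9_co.Degree
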